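import Pool.Agent.T6.H9.NA.Main

/-!
# Zeros of products of linear polynomials

Owner helper9.
-/

set_option autoImplicit false
set_option linter.unusedSectionVars false
set_option linter.style.haveILetI false
set_option linter.unusedVariables false

open Finset NumberField IsDedekindDomain Polynomial

namespace Pool.Agent.T6.H9.NA

open Pool.Agent.T6.H9.MV Pool.Agent.T6.H9.HY Pool.Agent.T6.H9.QM Pool.Agent.T6.H9.NagaoAvg

section

variable {K : Type} [Field K] [NumberField K] {m : ℕ}

open Classical in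
/-- number of zeros of a nonzero polynomial modulo `v` -/
lemma zeros_mv (b : MvPolynomial (Fin m) (𝓞 K)) (hb : b ≠ 0) : ∃ D : ℝ, 0 ≤ D ∧
    ∀ v : HeightOneSpectrum (𝓞 K),
      ((univ.filter fun t : Fin m → kv v =>
        MvPolynomial.eval₂Hom (Ideal.Quotient.mk v.asIdeal) t b = 0).card : ℝ) ≤
      D / (qv v : ℝ) * (qv v : ℝ) ^ m := by
  obtain ⟨s, hs⟩ := MvPolynomial.ne_zero_iff.1 hb
  refine ⟨max (b.totalDegree : ℝ) (Ideal.absNorm (Ideal.span {b.coeff s}) : ℝ),
    le_max_of_le_left (Nat.cast_nonneg _), fun v => ?_⟩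
  have hq : (0 : ℝ) < qv v := by linarith [one_le_qvR v]
  by_cases h : b.coeff s ∈ v.asIdeal
  · have h1 : (qv v : ℝ) ≤ (Ideal.absNorm (Ideal.span {b.coeff s}) : ℝ) := by
      exact_mod_cast qv_le_norm h hs
    have h2 : ((univ.filter fun t : Fin m → kv v =>
        MvPolynomial.eval₂Hom (Ideal.Quotient.mk v.asIdeal) t b = 0).card : ℝ) ≤
        (qv v : ℝ) ^ m := by
      have h3 := Finset.card_filter_le (univ : Finset (Fin m → kv v))
        (fun t => MvPolynomial.eval₂Hom (Ideal.Quotient.mk v.asIdeal) t b = 0)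
      rw [Finset.card_univ, Fintype.card_fun, card_kv', Fintype.card_fin] at h3
      exact_mod_cast h3
    refine h2.trans ?_
    have h4 : 1 ≤ max (b.totalDegree : ℝ) (Ideal.absNorm (Ideal.span {b.coeff s}) : ℝ) /
        (qv v : ℝ) := by
      rw [one_le_div hq]
      exact h1.trans (le_max_right _ _)
    have h5 : (0 : ℝ) < (qv v : ℝ) ^ m := by positivity
    nlinarith
  · set p : MvPolynomial (Fin m) (kv v) := MvPolynomial.map (Ideal.Quotient.mk v.asIdeal) b
      with hp
    have hp0 : p ≠ 0 := by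
      intro h1
      have h2 : p.coeff s = 0 := by rw [h1, MvPolynomial.coeff_zero]
      rw [hp, MvPolynomial.coeff_map, Ideal.Quotient.eq_zero_iff_mem] at h2
      exact h h2
    have hev : ∀ t : Fin m → kv v, MvPolynomial.eval₂Hom (Ideal.Quotient.mk v.asIdeal) t b =
        MvPolynomial.eval t p := by
      intro t
      rw [hp, MvPolynomial.eval_map, MvPolynomial.coe_eval₂Hom]
    have h1 := MvPolynomial.schwartz_zippel_totalDegree hp0 (univ : Finset (kv v))
    rw [Fintype.piFinset_univ, Finset.card_univ, card_kv'] at h1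
    have h2 : (((univ.filter fun t : Fin m → kv v => MvPolynomial.eval t p = 0).card : ℝ)) /
        (qv v : ℝ) ^ m ≤ (p.totalDegree : ℝ) / (qv v : ℝ) := by
      have h3 : (((univ.filter fun t : Fin m → kv v =>
        MvPolynomial.eval t p = 0).card / (qv v : ℚ≥0) ^ m : ℚ≥0) : ℝ) ≤
        ((p.totalDegree / qv v : ℚ≥0) : ℝ) := by
        exact_mod_cast h1
      push_cast at h3
      exact h3
    rw [div_le_iff₀ (by positivity)] at h2
    simp only [hev]
    refine h2.trans ?_
    refine mul_le_mul_of_nonneg_right ?_ (by positivity)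
    refine div_le_div_of_nonneg_right ?_ hq.le
    refine le_trans ?_ (le_max_left _ _)
    have h4 : p.totalDegree ≤ b.totalDegree := by
      unfold MvPolynomial.totalDegree
      exact Finset.sup_mono (MvPolynomial.support_map_subset _ _)
    exact_mod_cast h4

lemma spec_prod {r : ℕ} (a : Fin r → MvPolynomial (Fin m) (𝓞 K)) (v : HeightOneSpectrum (𝓞 K))
    (t : Fin m → kv v) (x : kv v) :
    (spec (∏ i, (X - C (a i))) v t).eval x =
      ∏ i, (x - MvPolynomial.eval₂Hom (Ideal.Quotient.mk v.asIdeal) t (a i)) := by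
  unfold spec
  rw [Polynomial.map_prod, Polynomial.eval_prod]
  refine Finset.prod_congr rfl fun i _ => ?_
  rw [Polynomial.map_sub, Polynomial.map_X, Polynomial.map_C, Polynomial.eval_sub,
    Polynomial.eval_X, Polynomial.eval_C]

lemma base_empty (v : HeightOneSpectrum (𝓞 K)) :
    base (∅ : Set (MvPolynomial (Fin m) (𝓞 K))) v = Set.univ := by
  ext t
  simp [base]

lemma ncard_base_empty (v : HeightOneSpectrum (𝓞 K)) :
    ((base (∅ : Set (MvPolynomial (Fin m) (𝓞 K))) v).ncard : ℝ) = (qv v : ℝ) ^ m := by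
  rw [base_empty, Set.ncard_univ, Nat.card_eq_fintype_card, Fintype.card_fun, card_kv',
    Fintype.card_fin]
  push_cast
  rfl

lemma zeros_empty (P : (MvPolynomial (Fin m) (𝓞 K))[X]) (v : HeightOneSpectrum (𝓞 K)) :
    zeros ∅ P v = Nat.card {p : (Fin m → kv v) × kv v // (spec P v p.1).eval p.2 = 0} := by
  unfold zeros
  congr 1
  simp only [base_empty, Set.mem_univ, true_and]

/-- the number of zeros of `∏ (x - a_i(t))` is `r q^m + O(q^(m-1))` -/
lemma zeros_prod {r : ℕ} (a : Fin r → MvPolynomial (Fin m) (𝓞 K)) (ha : Function.Injective a) :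
    ∃ D : ℝ, 0 ≤ D ∧ ∀ v : HeightOneSpectrum (𝓞 K),
      |(r : ℝ) - (zeros ∅ (∏ i, (X - C (a i))) v : ℝ) / (qv v : ℝ) ^ m| ≤ D / (qv v : ℝ) := by
  classical
  choose! E hE0 hE using fun p : Fin r × Fin r => zeros_mv (K := K) (a p.1 - a p.2)
  set D : ℝ := r * ∑ p ∈ (univ : Finset (Fin r × Fin r)).filter (fun p => p.1 ≠ p.2), E p with hD
  have hne : ∀ p ∈ (univ : Finset (Fin r × Fin r)).filter (fun p => p.1 ≠ p.2),
      a p.1 - a p.2 ≠ 0 := fun p hp =>
    sub_ne_zero.2 fun h => (Finset.mem_filter.1 hp).2 (ha h)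
  refine ⟨D, mul_nonneg (Nat.cast_nonneg _) (Finset.sum_nonneg fun p hp => hE0 p (hne p hp)),
    fun v => ?_⟩
  have hq : (0 : ℝ) < qv v := by linarith [one_le_qvR v]
  have hqm : (0 : ℝ) < (qv v : ℝ) ^ m := by positivity
  set ev : (Fin m → kv v) → MvPolynomial (Fin m) (𝓞 K) → kv v := fun t =>
    MvPolynomial.eval₂Hom (Ideal.Quotient.mk v.asIdeal) t with hev
  set bad : Finset (Fin m → kv v) := univ.filter fun t =>
    ∃ p : Fin r × Fin r, p.1 ≠ p.2 ∧ ev t (a p.1) = ev t (a p.2) with hbad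
  have hzero : zeros ∅ (∏ i, (X - C (a i))) v = ∑ t : Fin m → kv v,
      (univ.image fun i => ev t (a i)).card := by
    rw [zeros_empty, Nat.card_eq_fintype_card]
    have h1 : Fintype.card {p : (Fin m → kv v) × kv v //
        (spec (∏ i, (X - C (a i))) v p.1).eval p.2 = 0} =
        Fintype.card (Σ t : Fin m → kv v, {x : kv v //
          (spec (∏ i, (X - C (a i))) v t).eval x = 0}) :=
      Fintype.card_congr ⟨fun p => ⟨p.1.1, ⟨p.1.2, p.2⟩⟩, fun s => ⟨(s.1, s.2.1), s.2.2⟩,
        fun p => rfl, fun s => rfl⟩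
    rw [h1, Fintype.card_sigma]
    refine Finset.sum_congr rfl fun t _ => ?_
    rw [Fintype.card_subtype]
    congr 1
    ext x
    rw [Finset.mem_filter, spec_prod, Finset.prod_eq_zero_iff, Finset.mem_image]
    constructor
    · rintro ⟨-, i, hi, h⟩
      exact ⟨i, hi, (sub_eq_zero.1 h).symm⟩
    · rintro ⟨i, hi, h⟩
      exact ⟨Finset.mem_univ _, i, hi, sub_eq_zero.2 h.symm⟩
  have hle : ∀ t : Fin m → kv v, (univ.image fun i => ev t (a i)).card ≤ r := by
    intro t
    have h1 := Finset.card_image_le (s := (univ : Finset (Fin r))) (f := fun i => ev t (a i))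
    rwa [Finset.card_univ, Fintype.card_fin] at h1
  have hge : ∀ t : Fin m → kv v, (r : ℝ) - ((univ.image fun i => ev t (a i)).card : ℝ) ≤
      r * (if t ∈ bad then 1 else 0) := by
    intro t
    by_cases ht : t ∈ bad
    · rw [if_pos ht, mul_one]
      have : (0 : ℝ) ≤ ((univ.image fun i => ev t (a i)).card : ℝ) := Nat.cast_nonneg _
      linarith
    · rw [if_neg ht, mul_zero]
      have hinj : Function.Injective fun i => ev t (a i) := by
        intro i j hij
        by_contra hcon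
        exact ht (Finset.mem_filter.2 ⟨Finset.mem_univ _, (i, j), hcon, hij⟩)
      rw [Finset.card_image_of_injective _ hinj, Finset.card_univ, Fintype.card_fin, sub_self]
  have hb : (bad.card : ℝ) ≤ (∑ p ∈ (univ : Finset (Fin r × Fin r)).filter
      (fun p => p.1 ≠ p.2), E p) / (qv v : ℝ) * (qv v : ℝ) ^ m := by
    have h1 : bad ⊆ ((univ : Finset (Fin r × Fin r)).filter (fun p => p.1 ≠ p.2)).biUnion
        fun p => univ.filter fun t : Fin m → kv v => ev t (a p.1 - a p.2) = 0 := by
      intro t ht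
      obtain ⟨-, p, hp, h⟩ := Finset.mem_filter.1 ht
      rw [Finset.mem_biUnion]
      refine ⟨p, Finset.mem_filter.2 ⟨Finset.mem_univ _, hp⟩,
        Finset.mem_filter.2 ⟨Finset.mem_univ _, ?_⟩⟩
      rw [hev]
      beta_reduce
      rw [map_sub, sub_eq_zero]
      exact h
    have h2 : (bad.card : ℝ) ≤ ∑ p ∈ (univ : Finset (Fin r × Fin r)).filter
        (fun p => p.1 ≠ p.2), ((univ.filter fun t : Fin m → kv v =>
          ev t (a p.1 - a p.2) = 0).card : ℝ) := by
      exact_mod_cast (Finset.card_le_card h1).trans Finset.card_biUnion_le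
    refine h2.trans ((Finset.sum_le_sum fun p hp => hE p (hne p hp) v).trans (le_of_eq ?_))
    rw [Finset.sum_div, Finset.sum_mul]
  have hsum : (r : ℝ) * (qv v : ℝ) ^ m - (zeros ∅ (∏ i, (X - C (a i))) v : ℝ) =
      ∑ t : Fin m → kv v, ((r : ℝ) - ((univ.image fun i => ev t (a i)).card : ℝ)) := by
    rw [hzero, Finset.sum_sub_distrib, Finset.sum_const, Finset.card_univ, Fintype.card_fun,
      card_kv', Fintype.card_fin, nsmul_eq_mul]
    push_cast
    ring
  have hnn : 0 ≤ (r : ℝ) * (qv v : ℝ) ^ m - (zeros ∅ (∏ i, (X - C (a i))) v : ℝ) := by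
    rw [hsum]
    refine Finset.sum_nonneg fun t _ => ?_
    rw [sub_nonneg]
    exact_mod_cast hle t
  have hup : (r : ℝ) * (qv v : ℝ) ^ m - (zeros ∅ (∏ i, (X - C (a i))) v : ℝ) ≤
      D / (qv v : ℝ) * (qv v : ℝ) ^ m := by
    rw [hsum]
    refine (Finset.sum_le_sum fun t _ => hge t).trans ?_
    rw [← Finset.mul_sum, Finset.sum_ite_mem, Finset.univ_inter, Finset.sum_const, nsmul_eq_mul,
      mul_one]
    refine (mul_le_mul_of_nonneg_left hb (Nat.cast_nonneg r)).trans (le_of_eq ?_)
    rw [hD]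
    ring
  have h1 : (r : ℝ) - (zeros ∅ (∏ i, (X - C (a i))) v : ℝ) / (qv v : ℝ) ^ m =
      ((r : ℝ) * (qv v : ℝ) ^ m - (zeros ∅ (∏ i, (X - C (a i))) v : ℝ)) / (qv v : ℝ) ^ m := by
    field_simp
  rw [h1, abs_of_nonneg (div_nonneg hnn hqm.le), div_le_iff₀ hqm]
  exact hup

end

end Pool.Agent.T6.H9.NA
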