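import Pool.Agent.T6.H9.QM.Pair

/-!
# Local computations for the average of the Nagao sums

Owner helper9.
-/

set_option autoImplicit false
set_option linter.unusedSectionVars false
set_option linter.style.haveILetI false
set_option linter.unusedVariables false

open Finset

namespace Pool.Agent.T6.H9.NA

open Pool.Agent.T6.H9.QM

section

variable {F : Type} [Field F] [Fintype F] [DecidableEq F]

/-- value of a polynomial with given coefficients -/
def lin {m s n : ℕ} (p : (Fin m → F) × F) (c : Fin s × (Fin m → Fin (n + 1)) → F) : F :=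
  ∑ q : Fin s × (Fin m → Fin (n + 1)), c q * (∏ j, p.1 j ^ (q.2 j : ℕ)) * p.2 ^ (q.1 : ℕ)

lemma lin_add {m s n : ℕ} (p : (Fin m → F) × F) (c d : Fin s × (Fin m → Fin (n + 1)) → F) :
    lin p (c + d) = lin p c + lin p d := by
  unfold lin
  rw [← Finset.sum_add_distrib]
  refine Finset.sum_congr rfl fun q _ => ?_
  rw [Pi.add_apply]
  ring

lemma lin_zero {m s n : ℕ} (p : (Fin m → F) × F) :
    lin p (0 : Fin s × (Fin m → Fin (n + 1)) → F) = 0 := by
  unfold lin
  simp

lemma lin_single {m s n : ℕ} (p : (Fin m → F) × F) (q : Fin s × (Fin m → Fin (n + 1))) (a : F) :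
    lin p (Pi.single q a) = a * (∏ j, p.1 j ^ (q.2 j : ℕ)) * p.2 ^ (q.1 : ℕ) := by
  unfold lin
  rw [Fintype.sum_eq_single q]
  · rw [Pi.single_eq_same]
  · intro q' hq'
    rw [Pi.single_eq_of_ne hq']
    ring

lemma lin_surj {m s n : ℕ} (hs : 2 ≤ s) (hn : 1 ≤ n) {p p' : (Fin m → F) × F} (hne : p ≠ p')
    (α α' : F) : ∃ c : Fin s × (Fin m → Fin (n + 1)) → F, lin p c = α ∧ lin p' c = α' := by
  by_cases ht : p.1 = p'.1
  · have hx : p.2 ≠ p'.2 := fun h => hne (Prod.ext ht h)
    have hd : p.2 - p'.2 ≠ 0 := sub_ne_zero.2 hx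
    refine ⟨Pi.single (⟨0, by omega⟩, fun _ => 0) ((p.2 * α' - p'.2 * α) / (p.2 - p'.2)) +
      Pi.single (⟨1, by omega⟩, fun _ => 0) ((α - α') / (p.2 - p'.2)), ?_, ?_⟩
    · rw [lin_add, lin_single, lin_single]
      simp only [Fin.val_zero, pow_zero, Finset.prod_const_one, mul_one, pow_one]
      field_simp
      ring
    · rw [lin_add, lin_single, lin_single]
      simp only [Fin.val_zero, pow_zero, Finset.prod_const_one, mul_one, pow_one]
      field_simp
      ring
  · obtain ⟨j, hj⟩ : ∃ j, p.1 j ≠ p'.1 j := by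
      by_contra hcon
      push Not at hcon
      exact ht (funext hcon)
    have hd : p.1 j - p'.1 j ≠ 0 := sub_ne_zero.2 hj
    have he : ∀ r : (Fin m → F) × F, ∏ i, r.1 i ^ ((Pi.single j (⟨1, by omega⟩ : Fin (n + 1)) :
        Fin m → Fin (n + 1)) i : ℕ) = r.1 j := by
      intro r
      rw [Fintype.prod_eq_single j]
      · rw [Pi.single_eq_same, pow_one]
      · intro i hi
        rw [Pi.single_eq_of_ne hi, Fin.val_zero, pow_zero]
    refine ⟨Pi.single (⟨0, by omega⟩, fun _ => 0)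
        ((p.1 j * α' - p'.1 j * α) / (p.1 j - p'.1 j)) +
      Pi.single (⟨0, by omega⟩, Pi.single j (⟨1, by omega⟩ : Fin (n + 1)))
        ((α - α') / (p.1 j - p'.1 j)), ?_, ?_⟩
    · rw [lin_add, lin_single, lin_single, he]
      simp only [Fin.val_zero, pow_zero, Finset.prod_const_one, mul_one]
      field_simp
      ring
    · rw [lin_add, lin_single, lin_single, he]
      simp only [Fin.val_zero, pow_zero, Finset.prod_const_one, mul_one]
      field_simp
      ring

/-- the index type of the coefficients -/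
abbrev Ix (γ k m n : ℕ) : Type := (Fin (γ + 1) × (Fin m → Fin (n + 1))) ⊕
  (Fin k × (Fin m → Fin (n + 1)))

variable {γ k m n : ℕ}

/-- the values of `g` and of `h - x^k` at a point -/
def L1 (γ k m n : ℕ) (p : (Fin m → F) × F) : (Ix γ k m n → F) →+ F × F where
  toFun c := (lin p fun q => c (Sum.inl q), lin p fun q => c (Sum.inr q))
  map_zero' := by
    refine Prod.ext ?_ ?_
    · exact lin_zero p
    · exact lin_zero p
  map_add' c d := by
    refine Prod.ext ?_ ?_
    · exact lin_add p _ _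
    · exact lin_add p _ _

/-- the values of `g` and of `h - x^k` at two points -/
def L2 (γ k m n : ℕ) (p p' : (Fin m → F) × F) : (Ix γ k m n → F) →+ (F × F) × (F × F) :=
  (L1 γ k m n p).prod (L1 γ k m n p')

lemma L2_surj (hγ : 1 ≤ γ) (hk : 2 ≤ k) (hn : 1 ≤ n) {p p' : (Fin m → F) × F} (hne : p ≠ p') :
    Function.Surjective (L2 γ k m n p p') := by
  rintro ⟨⟨a, b⟩, ⟨a', b'⟩⟩
  obtain ⟨c, hc, hc'⟩ := lin_surj (s := γ + 1) (n := n) (by omega) hn hne a a'
  obtain ⟨d, hd, hd'⟩ := lin_surj (s := k) (n := n) hk hn hne b b'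
  refine ⟨Sum.elim c d, ?_⟩
  refine Prod.ext (Prod.ext ?_ ?_) (Prod.ext ?_ ?_)
  · exact hc
  · exact hd
  · exact hc'
  · exact hd'

lemma L1_surj (hγ : 1 ≤ γ) (hk : 2 ≤ k) (hn : 1 ≤ n) (p : (Fin m → F) × F) :
    Function.Surjective (L1 γ k m n p) := by
  have hne : p ≠ (p.1, p.2 + 1) := by
    intro h
    have h1 := congrArg Prod.snd h
    have h2 : p.2 = p.2 + 1 := h1
    exact one_ne_zero (left_eq_add.1 h2)
  intro a
  obtain ⟨c, hc⟩ := L2_surj hγ hk hn hne (a, 0)
  exact ⟨c, congrArg Prod.fst hc⟩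

/-- the real valued quadratic character -/
noncomputable def chi (a : F) : ℝ := ((quadraticChar F a : ℤ) : ℝ)

lemma chi_sum (hF : ringChar F ≠ 2) : ∑ a : F, chi a = 0 := by
  unfold chi
  have h := quadraticChar_sum_zero hF
  exact_mod_cast h

lemma chi_abs (a : F) : |chi a| ≤ 1 := by
  unfold chi
  by_cases ha : a = 0
  · rw [ha, quadraticChar_zero]
    simp
  · rcases quadraticChar_dichotomy ha with h | h
    · rw [h]; simp
    · rw [h]; simp

lemma chi_sq (a : F) : chi (a ^ 2) = if a = 0 then 0 else 1 := by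
  unfold chi
  split_ifs with h
  · rw [h, zero_pow (by norm_num), quadraticChar_zero]
    simp
  · rw [quadraticChar_sq_one' h]
    simp

/-- the local function at a point; `a` is the value of `P` and `b` the value of `x^k` -/
noncomputable def phi (a b : F) (u : F × F) : ℝ :=
  if a = 0 then chi (u.1 ^ 2) - (1 - 1 / (Fintype.card F : ℝ))
  else chi (a * (b + u.2) + u.1 ^ 2)

lemma card_pos' : (1 : ℝ) ≤ (Fintype.card F : ℝ) := by
  exact_mod_cast (Fintype.card_pos : 0 < Fintype.card F)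

lemma phi_mean (hF : ringChar F ≠ 2) (a b : F) : rmean (phi a b) = 0 := by
  have hc := card_pos' (F := F)
  rw [rmean_eq, Fintype.sum_prod_type]
  by_cases ha : a = 0
  · have h1 : ∀ u : F, ∑ w : F, phi a b (u, w) = (Fintype.card F : ℝ) *
        ((if u = 0 then 0 else 1) - (1 - 1 / (Fintype.card F : ℝ))) := by
      intro u
      unfold phi
      simp only [if_pos ha]
      rw [Finset.sum_const, Finset.card_univ, nsmul_eq_mul, chi_sq]
    rw [Finset.sum_congr rfl fun u _ => h1 u, ← Finset.mul_sum, Finset.sum_sub_distrib]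
    have h2 : ∑ u : F, (if u = 0 then (0 : ℝ) else 1) = (Fintype.card F : ℝ) - 1 := by
      have h3 : ∀ u : F, (if u = 0 then (0 : ℝ) else 1) = 1 - if u = 0 then 1 else 0 := by
        intro u
        split_ifs <;> simp
      rw [Finset.sum_congr rfl fun u _ => h3 u, Finset.sum_sub_distrib]
      simp
    rw [h2, Finset.sum_const, Finset.card_univ, nsmul_eq_mul]
    have h4 : (Fintype.card F : ℝ) - 1 - (Fintype.card F : ℝ) * (1 - 1 / (Fintype.card F : ℝ)) = 0 := by
      field_simp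
      ring
    rw [h4, mul_zero, zero_div]
  · have h1 : ∀ u : F, ∑ w : F, phi a b (u, w) = 0 := by
      intro u
      unfold phi
      simp only [if_neg ha]
      rw [← chi_sum (F := F) hF]
      refine Fintype.sum_bijective (fun w : F => a * (b + w) + u ^ 2) ?_ _ _ fun w => rfl
      refine (Fintype.bijective_iff_injective_and_card _).2 ⟨?_, rfl⟩
      intro w w' h
      have h2 : a * (b + w) + u ^ 2 = a * (b + w') + u ^ 2 := h
      have h3 : a * (b + w) = a * (b + w') := add_right_cancel h2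
      have h4 := mul_left_cancel₀ ha h3
      exact add_left_cancel h4
    rw [Finset.sum_congr rfl fun u _ => h1 u, Finset.sum_const_zero, zero_div]

lemma phi_abs (a b : F) (u : F × F) : |phi a b u| ≤ 1 := by
  have hc := card_pos' (F := F)
  have h1 : 0 < 1 / (Fintype.card F : ℝ) := by positivity
  have h2 : 1 / (Fintype.card F : ℝ) ≤ 1 := by
    rw [div_le_one (by linarith)]
    exact hc
  unfold phi
  split_ifs with h
  · rw [chi_sq, abs_le]
    split_ifs
    · constructor <;> linarith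
    · constructor <;> linarith
  · exact chi_abs _

variable (T : Finset (Fin m → F)) (d : ℕ) (Pv : (Fin m → F) × F → F)

/-- the local function -/
noncomputable def Wl (γ k n : ℕ) (T : Finset (Fin m → F)) (d : ℕ) (Pv : (Fin m → F) × F → F)
    (c : Ix γ k m n → F) : ℝ :=
  (1 / (Fintype.card F : ℝ) ^ d) * ∑ p ∈ T ×ˢ (univ : Finset F),
    phi (Pv p) (p.2 ^ k) (L1 γ k m n p c)

lemma Wl_mean (hF : ringChar F ≠ 2) (hγ : 1 ≤ γ) (hk : 2 ≤ k) (hn : 1 ≤ n) :
    rmean (Wl γ k n T d Pv) = 0 := by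
  unfold Wl
  rw [rmean_const_mul, pair_zero, mul_zero]
  intro p _
  rw [marg (L1 γ k m n p) (L1_surj hγ hk hn p) (phi (Pv p) (p.2 ^ k))]
  exact phi_mean hF _ _

lemma card_pts : ((T ×ˢ (univ : Finset F)).card : ℝ) = (T.card : ℝ) * (Fintype.card F : ℝ) := by
  rw [Finset.card_product, Finset.card_univ]
  push_cast
  rfl

lemma Wl_sq (hF : ringChar F ≠ 2) (hγ : 1 ≤ γ) (hk : 2 ≤ k) (hn : 1 ≤ n) {A : ℝ}
    (hT : (T.card : ℝ) ≤ A * (Fintype.card F : ℝ) ^ d) :
    rmean (fun c => Wl γ k n T d Pv c ^ 2) ≤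
      A * ((Fintype.card F : ℝ) / (Fintype.card F : ℝ) ^ d) := by
  have hc := card_pos' (F := F)
  have hq : (0 : ℝ) < (Fintype.card F : ℝ) ^ d := by positivity
  have e1 : (fun c => Wl γ k n T d Pv c ^ 2) = fun c => (1 / (Fintype.card F : ℝ) ^ d) ^ 2 *
      (∑ p ∈ T ×ˢ (univ : Finset F), phi (Pv p) (p.2 ^ k) (L1 γ k m n p c)) ^ 2 := by
    funext c
    unfold Wl
    rw [mul_pow]
  rw [e1, rmean_const_mul]
  have h1 := pair_sq (T ×ˢ (univ : Finset F))
    (fun p (c : Ix γ k m n → F) => phi (Pv p) (p.2 ^ k) (L1 γ k m n p c)) (τ := 1)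
    (fun p _ p' _ hne => by
      have h2 := indep (L2 γ k m n p p') (L2_surj hγ hk hn hne) (phi (Pv p) (p.2 ^ k))
        (phi (Pv p') (p'.2 ^ k))
      rw [phi_mean hF, zero_mul] at h2
      exact h2)
    (fun p _ => by
      refine rmean_le fun c => ?_
      have h2 := phi_abs (Pv p) (p.2 ^ k) (L1 γ k m n p c)
      rw [← sq, ← sq_abs]
      exact pow_le_one₀ (abs_nonneg _) h2)
  rw [card_pts, mul_one] at h1
  have h2 : (T.card : ℝ) * (Fintype.card F : ℝ) ≤
      A * (Fintype.card F : ℝ) ^ d * (Fintype.card F : ℝ) :=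
    mul_le_mul_of_nonneg_right hT (by linarith)
  refine (mul_le_mul_of_nonneg_left (h1.trans h2) (sq_nonneg _)).trans (le_of_eq ?_)
  field_simp

lemma Wl_abs {A : ℝ} (hT : (T.card : ℝ) ≤ A * (Fintype.card F : ℝ) ^ d) (c : Ix γ k m n → F) :
    |Wl γ k n T d Pv c| ≤ A * Fintype.card F := by
  have hc := card_pos' (F := F)
  have hq : (0 : ℝ) < (Fintype.card F : ℝ) ^ d := by positivity
  unfold Wl
  rw [abs_mul, abs_of_nonneg (by positivity : (0 : ℝ) ≤ 1 / (Fintype.card F : ℝ) ^ d)]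
  have h1 := pair_abs (T ×ˢ (univ : Finset F))
    (fun p (c : Ix γ k m n → F) => phi (Pv p) (p.2 ^ k) (L1 γ k m n p c))
    (fun p _ c => phi_abs _ _ _) c
  rw [card_pts] at h1
  have h2 : (T.card : ℝ) * (Fintype.card F : ℝ) ≤
      A * (Fintype.card F : ℝ) ^ d * (Fintype.card F : ℝ) :=
    mul_le_mul_of_nonneg_right hT (by linarith)
  refine (mul_le_mul_of_nonneg_left (h1.trans h2) (by positivity)).trans (le_of_eq ?_)
  field_simp

/-- the number of solutions of `y² = f(x)` -/
lemma card_sol (hF : ringChar F ≠ 2) (f : F → F) :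
    (Nat.card {p : F × F // p.2 ^ 2 = f p.1} : ℝ) = ∑ x : F, (1 + chi (f x)) := by
  classical
  have h1 : Nat.card {p : F × F // p.2 ^ 2 = f p.1} =
      ∑ x : F, Fintype.card {y : F // y ^ 2 = f x} := by
    rw [Nat.card_eq_fintype_card, ← Fintype.card_sigma]
    refine Fintype.card_congr ⟨fun p => ⟨p.1.1, ⟨p.1.2, p.2⟩⟩, fun s => ⟨(s.1, s.2.1), s.2.2⟩,
      fun p => rfl, fun s => rfl⟩
  rw [h1]
  push_cast
  refine Finset.sum_congr rfl fun x _ => ?_
  have h2 := quadraticChar_card_sqrts hF (f x)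
  have h3 : (Fintype.card {y : F // y ^ 2 = f x} : ℤ) = quadraticChar F (f x) + 1 := by
    rw [← h2]
    congr 1
    rw [Set.toFinset_card]
    rfl
  unfold chi
  have h4 : ((Fintype.card {y : F // y ^ 2 = f x} : ℤ) : ℝ) =
      ((quadraticChar F (f x) + 1 : ℤ) : ℝ) := by rw [h3]
  push_cast at h4
  rw [h4]
  ring

/-- the fibre average in terms of the local function -/
lemma avg_eq (hF : ringChar F ≠ 2) (c : Ix γ k m n → F) (f : (Fin m → F) → F → F)
    (hf : ∀ t x, f t x = Pv (t, x) * (x ^ k + (L1 γ k m n (t, x) c).2) +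
      (L1 γ k m n (t, x) c).1 ^ 2) :
    (∑ t ∈ T, ((Fintype.card F : ℝ) -
      (Nat.card {p : F × F // p.2 ^ 2 = f t p.1} : ℝ))) / (Fintype.card F : ℝ) ^ d =
    -Wl γ k n T d Pv c - (1 - 1 / (Fintype.card F : ℝ)) *
      ((((T ×ˢ (univ : Finset F)).filter fun p => Pv p = 0).card : ℝ) /
        (Fintype.card F : ℝ) ^ d) := by
  classical
  have hc := card_pos' (F := F)
  have hq : (0 : ℝ) < (Fintype.card F : ℝ) ^ d := by positivity
  have h1 : ∀ t ∈ T, (Fintype.card F : ℝ) -
      (Nat.card {p : F × F // p.2 ^ 2 = f t p.1} : ℝ) = -∑ x : F, chi (f t x) := by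
    intro t _
    rw [card_sol hF, Finset.sum_add_distrib, Finset.sum_const, Finset.card_univ, nsmul_eq_mul]
    ring
  rw [Finset.sum_congr rfl h1, Finset.sum_neg_distrib,
    ← Finset.sum_product' T univ (fun t x => chi (f t x))]
  have h2 : ∀ p ∈ T ×ˢ (univ : Finset F), chi (f p.1 p.2) =
      phi (Pv p) (p.2 ^ k) (L1 γ k m n p c) +
        (1 - 1 / (Fintype.card F : ℝ)) * (if Pv p = 0 then 1 else 0) := by
    intro p _
    unfold phi
    rw [hf]
    split_ifs with h
    · rw [show Pv (p.1, p.2) = 0 from h, zero_mul, zero_add]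
      ring
    · rw [mul_zero, add_zero]
  rw [Finset.sum_congr rfl h2, Finset.sum_add_distrib, ← Finset.mul_sum, Finset.sum_boole]
  unfold Wl
  field_simp
  ring

end

end Pool.Agent.T6.H9.NA
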