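import Pool.Agent.T6.H9.NA.Defs
import Pool.Agent.T6.H9.NA.Loc
import Pool.Agent.T6.H9.QM.Wrap

/-!
# The average of the Nagao sums of hyperelliptic fibrations

Owner helper9.
-/

set_option autoImplicit false
set_option linter.unusedSectionVars false
set_option linter.style.haveILetI false
set_option linter.unusedVariables false

open Finset NumberField IsDedekindDomain Polynomial

namespace Pool.Agent.T6.H9.NA

open Pool.Agent.T6.H9.MV Pool.Agent.T6.H9.HY Pool.Agent.T6.H9.QM Pool.Agent.T6.H9.NagaoAvg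

section

variable {K : Type} [Field K] [NumberField K] {γ k m n : ℕ}

lemma spec_add (f g : (MvPolynomial (Fin m) (𝓞 K))[X]) (v : HeightOneSpectrum (𝓞 K))
    (t : Fin m → kv v) : spec (f + g) v t = spec f v t + spec g v t := by
  unfold spec
  rw [Polynomial.map_add]

lemma spec_mul (f g : (MvPolynomial (Fin m) (𝓞 K))[X]) (v : HeightOneSpectrum (𝓞 K))
    (t : Fin m → kv v) : spec (f * g) v t = spec f v t * spec g v t := by
  unfold spec
  rw [Polynomial.map_mul]

lemma spec_sum {s : ℕ} (a : Fin s × (Fin m → Fin (n + 1)) → 𝓞 K)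
    (v : HeightOneSpectrum (𝓞 K)) (t : Fin m → kv v) (x : kv v) :
    (spec (∑ p : Fin s × (Fin m → Fin (n + 1)),
      C (MvPolynomial.C (a p) * ∏ j, MvPolynomial.X j ^ (p.2 j : ℕ)) * X ^ (p.1 : ℕ)) v t).eval x =
    lin (F := kv v) (t, x) (fun q => Ideal.Quotient.mk v.asIdeal (a q)) := by
  unfold spec lin
  rw [Polynomial.map_sum, Polynomial.eval_finsetSum]
  refine Finset.sum_congr rfl fun q _ => ?_
  rw [Polynomial.map_mul, Polynomial.map_pow, Polynomial.map_X, Polynomial.map_C,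
    Polynomial.eval_mul, Polynomial.eval_pow, Polynomial.eval_X, Polynomial.eval_C, map_mul,
    map_prod]
  congr 2
  · rw [MvPolynomial.coe_eval₂Hom, MvPolynomial.eval₂_C]
  · refine Finset.prod_congr rfl fun j _ => ?_
    rw [map_pow, MvPolynomial.coe_eval₂Hom, MvPolynomial.eval₂_X]

lemma spec_g (c : Idx γ k m n → 𝓞 K) (v : HeightOneSpectrum (𝓞 K)) (t : Fin m → kv v)
    (x : kv v) : (spec (gPoly c) v t).eval x = (L1 γ k m n (t, x) (redG v _ c)).1 :=
  spec_sum (fun q => c (Sum.inl q)) v t x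

lemma spec_h (c : Idx γ k m n → 𝓞 K) (v : HeightOneSpectrum (𝓞 K)) (t : Fin m → kv v)
    (x : kv v) : (spec (hPoly c) v t).eval x = x ^ k + (L1 γ k m n (t, x) (redG v _ c)).2 := by
  unfold hPoly
  rw [spec_add, Polynomial.eval_add, spec_sum (fun q => c (Sum.inr q)) v t x]
  congr 1
  unfold spec
  rw [Polynomial.map_pow, Polynomial.map_X, Polynomial.eval_pow, Polynomial.eval_X]

lemma spec_fib (P : (MvPolynomial (Fin m) (𝓞 K))[X]) (c : Idx γ k m n → 𝓞 K)
    (v : HeightOneSpectrum (𝓞 K)) (t : Fin m → kv v) (x : kv v) :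
    (spec (fib P c) v t).eval x = (spec P v t).eval x *
      (x ^ k + (L1 γ k m n (t, x) (redG v _ c)).2) + (L1 γ k m n (t, x) (redG v _ c)).1 ^ 2 := by
  unfold fib
  rw [spec_add, spec_mul, Polynomial.eval_add, Polynomial.eval_mul, spec_h, ← spec_g]
  congr 1
  rw [← Polynomial.eval_pow]
  congr 1
  unfold spec
  rw [Polynomial.map_pow]

lemma char_ne_two {v : HeightOneSpectrum (𝓞 K)} (h : (2 : 𝓞 K) ∉ v.asIdeal) :
    ringChar (kv v) ≠ 2 := by
  intro h2
  apply h
  rw [← Ideal.Quotient.eq_zero_iff_mem]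
  have h1 : ((2 : ℕ) : kv v) = 0 := by
    rw [← h2]
    exact ringChar.Nat.cast_ringChar
  have h3 : Ideal.Quotient.mk v.asIdeal 2 = ((2 : ℕ) : kv v) := by
    rw [Nat.cast_ofNat]
    exact map_ofNat _ 2
  rw [h3]
  exact h1

variable (I : Set (MvPolynomial (Fin m) (𝓞 K))) (d : ℕ)

open Classical in
/-- the points of the base as a finset -/
noncomputable def bs (I : Set (MvPolynomial (Fin m) (𝓞 K))) (v : HeightOneSpectrum (𝓞 K)) :
    Finset (Fin m → kv v) := univ.filter fun t => t ∈ base I v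

lemma mem_bs {v : HeightOneSpectrum (𝓞 K)} {t : Fin m → kv v} : t ∈ bs I v ↔ t ∈ base I v := by
  unfold bs
  simp

lemma bs_coe (v : HeightOneSpectrum (𝓞 K)) : (bs I v : Set (Fin m → kv v)) = base I v := by
  ext t
  exact mem_bs I

lemma card_bs (v : HeightOneSpectrum (𝓞 K)) : (base I v).ncard = (bs I v).card := by
  rw [← bs_coe, Set.ncard_coe_finset]

/-- the fibre average in terms of the local function -/
lemma fibreAverage_eq (P : (MvPolynomial (Fin m) (𝓞 K))[X]) (c : Idx γ k m n → 𝓞 K)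
    {v : HeightOneSpectrum (𝓞 K)} (h : (2 : 𝓞 K) ∉ v.asIdeal) :
    fibreAverage I d (fib P c) v =
      -Wl γ k n (bs I v) d (fun p : (Fin m → kv v) × kv v => (spec P v p.1).eval p.2)
        (redG v _ c) -
        (1 - 1 / (qv v : ℝ)) * ((zeros I P v : ℝ) / (qv v : ℝ) ^ d) := by
  have h1 := avg_eq (F := kv v) (bs I v) d
    (fun p : (Fin m → kv v) × kv v => (spec P v p.1).eval p.2)
    (char_ne_two h) (redG v _ c) (fun t x => (spec (fib P c) v t).eval x)
    (fun t x => spec_fib P c v t x)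
  rw [card_kv'] at h1
  have h2 : ((bs I v ×ˢ (univ : Finset (kv v))).filter fun p =>
      (spec P v p.1).eval p.2 = 0).card = zeros I P v := by
    classical
    unfold zeros
    rw [Nat.card_eq_fintype_card, Fintype.card_subtype]
    congr 1
    ext p
    simp [mem_bs]
  rw [h2] at h1
  unfold fibreAverage
  rw [← bs_coe, finsum_mem_coe_finset]
  exact h1

/-- a monic polynomial has at most `r #Y` zeros -/
lemma zeros_le {P : (MvPolynomial (Fin m) (𝓞 K))[X]} (hP : P.Monic)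
    (v : HeightOneSpectrum (𝓞 K)) : (zeros I P v : ℝ) ≤ (bs I v).card * P.natDegree := by
  classical
  have h1 : zeros I P v = ((bs I v ×ˢ (univ : Finset (kv v))).filter fun p =>
      (spec P v p.1).eval p.2 = 0).card := by
    unfold zeros
    rw [Nat.card_eq_fintype_card, Fintype.card_subtype]
    congr 1
    ext p
    simp [mem_bs]
  have h2 : ∀ t : Fin m → kv v, (univ.filter fun x : kv v => (spec P v t).eval x = 0).card ≤
      P.natDegree := by
    intro t
    have hm : (spec P v t).Monic := hP.map _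
    have h3 : (univ.filter fun x : kv v => (spec P v t).eval x = 0).card ≤
        (spec P v t).roots.toFinset.card := by
      refine Finset.card_le_card fun x hx => ?_
      rw [Multiset.mem_toFinset, Polynomial.mem_roots hm.ne_zero]
      exact (Finset.mem_filter.1 hx).2
    refine h3.trans ((Multiset.toFinset_card_le _).trans ((Polynomial.card_roots' _).trans ?_))
    exact Polynomial.natDegree_map_le
  have h3 : ((bs I v ×ˢ (univ : Finset (kv v))).filter fun p =>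
      (spec P v p.1).eval p.2 = 0).card =
      ∑ t ∈ bs I v, (univ.filter fun x : kv v => (spec P v t).eval x = 0).card := by
    rw [Finset.card_filter, Finset.sum_product]
    refine Finset.sum_congr rfl fun t _ => ?_
    rw [Finset.card_filter]
  rw [h1, h3]
  push_cast
  refine (Finset.sum_le_sum fun t _ => (Nat.cast_le (α := ℝ)).2 (h2 t)).trans (le_of_eq ?_)
  rw [Finset.sum_const, nsmul_eq_mul]

open Classical in
/-- the local functions at all places -/
noncomputable def Wg (γ k n : ℕ) (I : Set (MvPolynomial (Fin m) (𝓞 K))) (d : ℕ)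
    (P : (MvPolynomial (Fin m) (𝓞 K))[X])
    (v : HeightOneSpectrum (𝓞 K)) (a : Idx γ k m n → kv v) : ℝ :=
  if (2 : 𝓞 K) ∈ v.asIdeal then 0 else
    -Wl γ k n (bs I v) d (fun p : (Fin m → kv v) × kv v => (spec P v p.1).eval p.2) a

open Classical in
lemma finsum_primes (X : ℕ) (f : HeightOneSpectrum (𝓞 K) → ℝ) :
    ∑ᶠ v ∈ primes K X, f v = ∑ v ∈ plE K X, if (2 : 𝓞 K) ∈ v.asIdeal then 0 else f v := by
  rw [finsum_mem_eq_sum_of_inter_support_eq (t := (plE K X).filter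
    fun v => (2 : 𝓞 K) ∉ v.asIdeal)]
  · rw [Finset.sum_filter]
    refine Finset.sum_congr rfl fun v _ => ?_
    by_cases h : (2 : 𝓞 K) ∈ v.asIdeal
    · rw [if_neg (not_not.2 h), if_pos h]
    · rw [if_pos h, if_neg h]
  · congr 1
    ext v
    simp only [Finset.coe_filter, mem_plE, primes, Set.mem_ofPred_eq]

/-- the exponent -/
noncomputable def ex (d : ℕ) : ℝ := max 0 (1 - (d : ℝ) / 2)

lemma ex_nonneg : 0 ≤ ex d := le_max_left _ _

variable {A : ℝ} (hA : 0 ≤ A)
  (hI : ∀ v : HeightOneSpectrum (𝓞 K), ((base I v).ncard : ℝ) ≤ A * (qv v : ℝ) ^ d)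

lemma Wg_mean (P : (MvPolynomial (Fin m) (𝓞 K))[X]) (hγ : 1 ≤ γ) (hk : 2 ≤ k) (hn : 1 ≤ n)
    (v : HeightOneSpectrum (𝓞 K)) : rmean (Wg γ k n I d P v) = 0 := by
  unfold Wg
  split_ifs with h
  · rw [rmean_eq]
    simp
  · have h1 := rmean_const_mul (-1)
      (Wl γ k n (bs I v) d (fun p : (Fin m → kv v) × kv v => (spec P v p.1).eval p.2))
    simp only [neg_mul, one_mul] at h1
    rw [h1, Wl_mean _ _ _ (char_ne_two h) hγ hk hn, neg_zero]

include hA hI in
lemma Wg_sq (P : (MvPolynomial (Fin m) (𝓞 K))[X]) (hγ : 1 ≤ γ) (hk : 2 ≤ k) (hn : 1 ≤ n)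
    (v : HeightOneSpectrum (𝓞 K)) :
    rmean (fun a => Wg γ k n I d P v a ^ 2) ≤ A * (qv v : ℝ) ^ (2 * ex d - 1) := by
  have hq1 := one_le_qvR v
  have hq : (0 : ℝ) < qv v := by linarith
  have h0 : 0 ≤ (qv v : ℝ) ^ (2 * ex d - 1) := Real.rpow_nonneg hq.le _
  unfold Wg
  split_ifs with h
  · rw [rmean_eq]
    simpa using mul_nonneg hA h0
  · simp only [neg_sq]
    have hT := hI v
    rw [card_bs, ← card_kv'] at hT
    refine (Wl_sq _ _ _ (char_ne_two h) hγ hk hn hT).trans ?_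
    rw [card_kv']
    refine mul_le_mul_of_nonneg_left ?_ hA
    have h1 : (qv v : ℝ) / (qv v : ℝ) ^ d = (qv v : ℝ) ^ (1 - (d : ℝ)) := by
      rw [Real.rpow_sub hq, Real.rpow_one, Real.rpow_natCast]
    rw [h1]
    refine Real.rpow_le_rpow_of_exponent_le hq1 ?_
    have h2 : 1 - (d : ℝ) / 2 ≤ ex d := le_max_right _ _
    linarith

include hA hI in
lemma Wg_abs (P : (MvPolynomial (Fin m) (𝓞 K))[X]) (v : HeightOneSpectrum (𝓞 K))
    (a : Idx γ k m n → kv v) : |Wg γ k n I d P v a| ≤ A * (qv v : ℝ) ^ (1 : ℝ) := by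
  have hq1 := one_le_qvR v
  rw [Real.rpow_one]
  unfold Wg
  split_ifs with h
  · rw [abs_zero]
    positivity
  · rw [abs_neg]
    have hT := hI v
    rw [card_bs, ← card_kv'] at hT
    have h1 := Wl_abs (F := kv v) (γ := γ) (k := k) (n := n) (bs I v) d
      (fun p : (Fin m → kv v) × kv v => (spec P v p.1).eval p.2) hT a
    rwa [card_kv'] at h1

/-- the deviation of a comparison term -/
lemma cmp_le (P : (MvPolynomial (Fin m) (𝓞 K))[X]) {D : ℝ} (hD : 0 ≤ D)
    (z : HeightOneSpectrum (𝓞 K) → ℝ)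
    (hz : ∀ v, (2 : 𝓞 K) ∉ v.asIdeal → |z v - (1 - 1 / (qv v : ℝ)) *
      ((zeros I P v : ℝ) / (qv v : ℝ) ^ d)| ≤ D / (qv v : ℝ)) {δ : ℝ} (hδ : 0 < δ) :
    ∃ C' : ℝ, ∀ (c : Idx γ k m n → 𝓞 K) (X : ℕ), 1 ≤ X →
      |∑ᶠ v ∈ primes K X, (fibreAverage I d (fib P c) v + z v) * Real.log (qv v) -
        ∑ v ∈ plE K X, Real.log (qv v) * Wg γ k n I d P v (redG v _ c)| ≤
      C' * (X : ℝ) ^ (ex d + δ / 2) := by
  classical
  obtain ⟨C, hC0, hC⟩ := sum_log_div (K := K) (ε := δ / 2) (by positivity)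
  refine ⟨D * C, fun c X hX => ?_⟩
  rw [finsum_primes, ← Finset.sum_sub_distrib]
  have h1 : ∀ v ∈ plE K X, |(if (2 : 𝓞 K) ∈ v.asIdeal then 0 else
      (fibreAverage I d (fib P c) v + z v) * Real.log (qv v)) -
      Real.log (qv v) * Wg γ k n I d P v (redG v _ c)| ≤
        D * (Real.log (qv v) / (qv v : ℝ)) := by
    intro v _
    have hq1 := one_le_qvR v
    have hq : (0 : ℝ) < qv v := by linarith
    have hl : 0 ≤ Real.log (qv v) := Real.log_nonneg hq1
    unfold Wg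
    split_ifs with h
    · rw [mul_zero, sub_zero, abs_zero]
      positivity
    · rw [fibreAverage_eq I d P c h]
      have h2 : (-Wl γ k n (bs I v) d (fun p : (Fin m → kv v) × kv v =>
          (spec P v p.1).eval p.2)
          (redG v _ c) - (1 - 1 / (qv v : ℝ)) * ((zeros I P v : ℝ) / (qv v : ℝ) ^ d) + z v) *
          Real.log (qv v) - Real.log (qv v) *
          -Wl γ k n (bs I v) d (fun p : (Fin m → kv v) × kv v => (spec P v p.1).eval p.2)
            (redG v _ c) =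
          (z v - (1 - 1 / (qv v : ℝ)) * ((zeros I P v : ℝ) / (qv v : ℝ) ^ d)) *
            Real.log (qv v) := by ring
      rw [h2, abs_mul, abs_of_nonneg hl]
      refine (mul_le_mul_of_nonneg_right (hz v h) hl).trans (le_of_eq ?_)
      ring
  refine (Finset.abs_sum_le_sum_abs _ _).trans ((Finset.sum_le_sum h1).trans ?_)
  rw [← Finset.mul_sum, mul_assoc]
  refine mul_le_mul_of_nonneg_left ((hC X).trans ?_) hD
  refine mul_le_mul_of_nonneg_left ?_ hC0
  refine Real.rpow_le_rpow_of_exponent_le (by exact_mod_cast hX) ?_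
  have := ex_nonneg d
  linarith

variable {ι : Type} [Fintype ι]

include hA hI in
/-- **The almost-all theorem for the Nagao sums** with a general comparison term. -/
theorem main (ω : Module.Basis ι ℤ (𝓞 K)) (hγ : 1 ≤ γ) (hk : 2 ≤ k) (hn : 1 ≤ n)
    {δ : ℝ} (hδ : 0 < δ) (P : (MvPolynomial (Fin m) (𝓞 K))[X]) {D : ℝ} (hD : 0 ≤ D)
    (z : HeightOneSpectrum (𝓞 K) → ℝ)
    (hz : ∀ v, (2 : 𝓞 K) ∉ v.asIdeal → |z v - (1 - 1 / (qv v : ℝ)) *
      ((zeros I P v : ℝ) / (qv v : ℝ) ^ d)| ≤ D / (qv v : ℝ)) :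
    ∃ C : ℝ, 0 < C ∧ ∀ (N : ℕ) (B : Idx γ k m n × ι → ℕ), (∀ j, N ≤ B j) → ∀ X₀ : ℝ, 1 ≤ X₀ →
      ({c : Idx γ k m n → 𝓞 K | c ∈ Box ω B ∧ ∃ X : ℕ, X₀ ≤ X ∧ X ^ 6 ≤ N ∧
        (X : ℝ) ^ (max 0 (1 - (d : ℝ) / 2) + δ) < |∑ᶠ v ∈ primes K X,
          (fibreAverage I d (fib P c) v + z v) * Real.log (Ideal.absNorm v.asIdeal)|}.ncard : ℝ) ≤
        C * X₀ ^ (-δ) * ((Box ω B).ncard : ℝ) := by
  classical
  obtain ⟨C', hC'⟩ := cmp_le (γ := γ) (k := k) (n := n) I d P hD z hz hδ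
  obtain ⟨C, hC0, hC⟩ := almost_all_set (κ := Idx γ k m n) ω (ex_nonneg d)
    (by norm_num : (0 : ℝ) ≤ 1) hA hA hδ
    (fun v => Wg γ k n I d P v) (Wg_mean I d P hγ hk hn) (Wg_sq I d hA hI P hγ hk hn)
    (Wg_abs I d hA hI P)
    (fun c X => ∑ᶠ v ∈ primes K X, (fibreAverage I d (fib P c) v + z v) *
      Real.log (Ideal.absNorm v.asIdeal)) hC'
  refine ⟨C, hC0, fun N B hB X₀ hX₀ => ?_⟩
  have h1 := hC N B hB X₀ hX₀
  refine le_trans (le_of_eq ?_) h1
  congr 2
  ext c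
  have h2 : ∀ X : ℕ, ((X : ℝ) ^ (2 * (1 : ℝ) + 4) ≤ N ↔ X ^ 6 ≤ N) := by
    intro X
    have h3 : (2 * (1 : ℝ) + 4) = ((6 : ℕ) : ℝ) := by norm_num
    rw [h3, Real.rpow_natCast]
    exact_mod_cast Iff.rfl
  simp only [h2]
  rfl

end

end Pool.Agent.T6.H9.NA
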