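import Mathlib

/-!
# Definitions for the average of the Nagao sums of hyperelliptic fibrations

Owner helper9.
-/

set_option autoImplicit false

open NumberField IsDedekindDomain Polynomial

namespace Pool.Agent.T6.H9.NagaoAvg

variable {K : Type} [Field K] [NumberField K]

/-- The indices of the coefficients of a pair `(g, h)` of polynomials in `t_1, ..., t_m, x`, of
degree at most `n` in every `t_j`: for `g` the powers `x^0, ..., x^γ`, for `h` the powers
`x^0, ..., x^(k-1)`. -/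
abbrev Idx (γ k m n : ℕ) : Type := (Fin (γ + 1) × (Fin m → Fin (n + 1))) ⊕
  (Fin k × (Fin m → Fin (n + 1)))

/-- The polynomial `g = ∑_{i ≤ γ} ∑_e c(i, e) t^e x^i`. -/
noncomputable def gPoly {γ k m n : ℕ} (c : Idx γ k m n → 𝓞 K) : (MvPolynomial (Fin m) (𝓞 K))[X] :=
  ∑ p : Fin (γ + 1) × (Fin m → Fin (n + 1)),
    C (MvPolynomial.C (c (Sum.inl p)) * ∏ j, MvPolynomial.X j ^ (p.2 j : ℕ)) * X ^ (p.1 : ℕ)

/-- The polynomial `h = x^k + ∑_{i < k} ∑_e c(i, e) t^e x^i`. -/
noncomputable def hPoly {γ k m n : ℕ} (c : Idx γ k m n → 𝓞 K) : (MvPolynomial (Fin m) (𝓞 K))[X] :=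
  X ^ k + ∑ p : Fin k × (Fin m → Fin (n + 1)),
    C (MvPolynomial.C (c (Sum.inr p)) * ∏ j, MvPolynomial.X j ^ (p.2 j : ℕ)) * X ^ (p.1 : ℕ)

/-- The fibration `y² = P h + g²` with base the affine `m`-space with coordinates `t`: on the
zeros of `P` it has the multisection `y = g`. -/
noncomputable def fib {γ k m n : ℕ} (P : (MvPolynomial (Fin m) (𝓞 K))[X])
    (c : Idx γ k m n → 𝓞 K) : (MvPolynomial (Fin m) (𝓞 K))[X] :=
  P * hPoly c + gPoly c ^ 2

/-- The polynomial in `x` over the residue field at `v` obtained from `f` by reduction modulo `v`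
and specialisation at `t`. -/
noncomputable def spec {m : ℕ} (f : (MvPolynomial (Fin m) (𝓞 K))[X])
    (v : HeightOneSpectrum (𝓞 K)) (t : Fin m → 𝓞 K ⧸ v.asIdeal) : (𝓞 K ⧸ v.asIdeal)[X] :=
  f.map (MvPolynomial.eval₂Hom (Ideal.Quotient.mk v.asIdeal) t)

/-- The points over the residue field at `v` of the closed subset of the affine `m`-space defined
by the polynomials of `I`. -/
def base {m : ℕ} (I : Set (MvPolynomial (Fin m) (𝓞 K))) (v : HeightOneSpectrum (𝓞 K)) :
    Set (Fin m → 𝓞 K ⧸ v.asIdeal) :=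
  {t | ∀ p ∈ I, MvPolynomial.eval₂Hom (Ideal.Quotient.mk v.asIdeal) t p = 0}

/-- The fibre average at `v` of the fibration `y² = f(x, t)` over the base `I = 0` of dimension `d`:
`q^{-d} ∑_t (q - #{(x, y) : y² = f(x, t)})`, `q = N v`, over all points `t` of the base over the
residue field. -/
noncomputable def fibreAverage {m : ℕ} (I : Set (MvPolynomial (Fin m) (𝓞 K))) (d : ℕ)
    (f : (MvPolynomial (Fin m) (𝓞 K))[X]) (v : HeightOneSpectrum (𝓞 K)) : ℝ :=
  (∑ᶠ t ∈ base I v, ((Ideal.absNorm v.asIdeal : ℝ) -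
    (Nat.card {p : (𝓞 K ⧸ v.asIdeal) × (𝓞 K ⧸ v.asIdeal) // p.2 ^ 2 = (spec f v t).eval p.1} : ℝ))) /
    (Ideal.absNorm v.asIdeal : ℝ) ^ d

/-- The number of points `(t, x)` over the residue field at `v` with `t` in the base and
`P(x, t) = 0`. -/
noncomputable def zeros {m : ℕ} (I : Set (MvPolynomial (Fin m) (𝓞 K)))
    (P : (MvPolynomial (Fin m) (𝓞 K))[X]) (v : HeightOneSpectrum (𝓞 K)) : ℕ :=
  Nat.card {p : (Fin m → 𝓞 K ⧸ v.asIdeal) × (𝓞 K ⧸ v.asIdeal) //
    p.1 ∈ base I v ∧ (spec P v p.1).eval p.2 = 0}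

/-- The primes of norm at most `X` which do not divide `2`. -/
def primes (K : Type) [Field K] [NumberField K] (X : ℕ) : Set (HeightOneSpectrum (𝓞 K)) :=
  {v | Ideal.absNorm v.asIdeal ≤ X ∧ (2 : 𝓞 K) ∉ v.asIdeal}

/-- The families of coefficients whose coordinates with respect to the integral basis `ω` are
bounded by `B`. -/
def Box {ι κ : Type} [Fintype ι] (ω : Module.Basis ι ℤ (𝓞 K)) (B : κ × ι → ℕ) :
    Set (κ → 𝓞 K) :=
  {c | ∀ i j, |ω.repr (c i) j| ≤ (B (i, j) : ℤ)}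

end Pool.Agent.T6.H9.NagaoAvg
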